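import Pool.Agent.helper32.TRG.Spec

/-!
# tg:Z5F (project TRG, MP_561ff4_al): the theorem for ten conjugates
-/

set_option autoImplicit false

open Finset

namespace Pool.Agent.TRI

open Pool.Agent.EXC

theorem Z5F_fin (F : Type) [Field F] [Finite F] : Finite (EG C4 F) := by
  have h1 : Finite (Lm C4 F ≃ₗ[F] Lm C4 F) :=
    Finite.of_injective (fun e : Lm C4 F ≃ₗ[F] Lm C4 F => (e : Lm C4 F → Lm C4 F)) DFunLike.coe_injective
  exact Subtype.finite

theorem Z5F_j (j : Fin 6) (h : ip C4 th4 (bt4 j) = 0) : j = 2 ∨ j = 3 ∨ j = 4 := by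
  have h1 := (bt4_spec j).2
  rw [h] at h1
  revert h1
  fin_cases j <;> simp

theorem Z5F (hZ5A : Z5A_stmt) (hZ5B : Z5B_stmt) (hZ5C : Z5C_stmt) (hPR4 : PR4_stmt) (hYC4 : YC4_stmt) :
    Z5F_stmt := by
  intro c2 c3 c4 c0 cc F _ _ x hx
  have hfin : Finite (EG C4 F) := Z5F_fin F
  obtain ⟨t, a, b, m, hm, hT, hY⟩ := hYC4 F x (g4_ARA F x) hx
  have key : G5 (x t * t⁻¹) := by
    rcases hm with hm | hm | hm
    · subst hm
      exact hZ5C F cc a b _ hT hY
    · subst hm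
      exact hZ5B F c0 a b _ hT hY
    · subst hm
      obtain ⟨hEa, hEb, -⟩ := g4_TPF F a b 0 hT
      obtain ⟨j, hj, g, hg, κ, hκ, hga, hgb⟩ := hPR4 F a b 0 hT (by norm_num)
      have hj' := Z5F_j j hj
      have hC : Ct4 j := by
        rcases hj' with h | h | h
        · rw [h]
          exact c2
        · rw [h]
          exact c3
        · rw [h]
          exact c4
      exact hZ5A F j hj' hC a b _ κ hκ ⟨g, hg, hga, hgb⟩ hEa hEb hY
  obtain ⟨g, hg⟩ := key
  obtain ⟨h1, h2⟩ := g_GGA (EG C4 F) x t g hg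
  exact ⟨h1, h2 (g4_FIX F).2⟩

end Pool.Agent.TRI
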